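import Mathlib

open Set Module Matroid

namespace Pool.Agent.FlatsCount

variable {F : Type} [Field F] [Fintype F]

/-- The vector `(1, t, ..., t^s, c)` attached to the point `(t,c)`. -/
noncomputable def vec (s : ℕ) (x : F × F) : (Fin (s+1) → F) × F := (fun i => x.1 ^ (i:ℕ), x.2)

/-- graph of the polynomial of degree `< s` with coefficients `g`. -/
def curve {s : ℕ} (g : Fin s → F) : Set (F × F) := {x | x.2 = ∑ i, g i * x.1 ^ (i:ℕ)}

/-- the functional vanishing exactly on the curve -/
noncomputable def hfun {s : ℕ} (g : Fin s → F) : ((Fin (s+1) → F) × F) →ₗ[F] F :=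
  LinearMap.snd F _ _ - (∑ i : Fin s, g i • (LinearMap.proj (Fin.castSucc i))) ∘ₗ LinearMap.fst F _ _

lemma hfun_vec {s : ℕ} (g : Fin s → F) (x : F × F) :
    hfun g (vec s x) = x.2 - ∑ i, g i * x.1 ^ (i:ℕ) := by
  simp [hfun, vec]

lemma mem_curve_iff {s : ℕ} (g : Fin s → F) (x : F × F) :
    x ∈ curve g ↔ hfun g (vec s x) = 0 := by
  rw [hfun_vec, sub_eq_zero]; rfl

lemma curve_injOn {s : ℕ} (g : Fin s → F) : InjOn Prod.fst (curve g) := by
  rintro ⟨a, b⟩ hx ⟨c, d⟩ hy h
  simp only [curve, mem_setOf_eq] at hx hy h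
  subst h
  rw [hx, hy]

/-- evaluation functional of a polynomial -/
noncomputable def pfun (s : ℕ) (P : Polynomial F) : ((Fin (s+1) → F) × F) →ₗ[F] F :=
  (∑ i : Fin (s+1), P.coeff i • (LinearMap.proj i)) ∘ₗ LinearMap.fst F _ _

lemma pfun_vec (s : ℕ) (P : Polynomial F) (hP : P.natDegree < s + 1) (x : F × F) :
    pfun s P (vec s x) = P.eval x.1 := by
  rw [Polynomial.eval_eq_sum_range' hP, Finset.sum_range]
  simp [pfun, vec]

lemma linInd_of_transversal (s : ℕ) (I : Set (F × F)) (h1 : InjOn Prod.fst I)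
    (h2 : I.ncard ≤ s + 1) : LinearIndepOn F (vec s) I := by
  classical
  obtain ⟨T, rfl⟩ := (Set.toFinite I).exists_finset_coe
  rw [Set.ncard_coe_finset] at h2
  rw [linearIndepOn_finset_iff]
  intro a ha x hx
  set P : Polynomial F := ∏ y ∈ T.erase x, (Polynomial.X - Polynomial.C y.1) with hP
  have hdeg : P.natDegree < s + 1 := by
    rw [hP, Polynomial.natDegree_finset_prod_X_sub_C_eq_card]
    have := Finset.card_erase_of_mem hx
    have h3 : 0 < T.card := Finset.card_pos.2 ⟨x, hx⟩
    omega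
  have h4 := congrArg (pfun s P) ha
  rw [map_sum, map_zero] at h4
  simp only [map_smul, smul_eq_mul, pfun_vec s P hdeg] at h4
  rw [Finset.sum_eq_single x] at h4
  · rcases mul_eq_zero.1 h4 with h | h
    · exact h
    · exfalso
      rw [hP, Polynomial.eval_prod, Finset.prod_eq_zero_iff] at h
      obtain ⟨y, hy, hy2⟩ := h
      simp only [Polynomial.eval_sub, Polynomial.eval_X, Polynomial.eval_C, sub_eq_zero] at hy2
      rw [Finset.mem_erase] at hy
      exact hy.1 (h1 hy.2 hx hy2.symm)
  · intro y hy hyx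
    rw [hP, Polynomial.eval_prod]
    rw [Finset.prod_eq_zero (Finset.mem_erase.2 ⟨hyx, hy⟩) (by simp)]
    simp
  · intro h; exact absurd hx h

lemma linInd_curve {s : ℕ} (g : Fin s → F) (I : Set (F × F)) (h1 : I ⊆ curve g)
    (h2 : I.ncard ≤ s + 1) : LinearIndepOn F (vec s) I :=
  linInd_of_transversal s I ((curve_injOn g).mono h1) h2

lemma finrank_V (s : ℕ) : finrank F ((Fin (s+1) → F) × F) = s + 2 := by
  simp

lemma ncard_eq_finrank {s : ℕ} {I : Set (F × F)} (h : LinearIndepOn F (vec s) I) :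
    finrank F (Submodule.span F (vec s '' I)) = I.ncard := by
  classical
  have h2 := finrank_span_eq_card (R := F) h.linearIndependent
  rw [Set.image_eq_range]
  rw [Set.ncard_eq_toFinset_card', Set.toFinset_card]
  exact h2

lemma ncard_le {s : ℕ} {I : Set (F × F)} (h : LinearIndepOn F (vec s) I) : I.ncard ≤ s + 2 := by
  rw [← ncard_eq_finrank h, ← finrank_V (F := F) s]
  exact Submodule.finrank_le _

/-- independent sets -/
def Ind (s : ℕ) (I : Set (F × F)) : Prop :=
  LinearIndepOn F (vec s) I ∨ (I.ncard ≤ s + 2 ∧ ∃ g : Fin s → F, I ⊆ curve g)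

lemma Ind.mono {s : ℕ} {I J : Set (F × F)} (hJ : Ind s J) (h : I ⊆ J) : Ind s I := by
  rcases hJ with hJ | ⟨hJ, g, hg⟩
  · exact Or.inl (hJ.mono h)
  · exact Or.inr ⟨(Set.ncard_le_ncard h (Set.toFinite _)).trans hJ, g, h.trans hg⟩

lemma Ind.ncard_le {s : ℕ} {I : Set (F × F)} (hI : Ind s I) : I.ncard ≤ s + 2 := by
  rcases hI with hI | hI
  · exact FlatsCount.ncard_le hI
  · exact hI.1

lemma Ind.lin {s : ℕ} {I : Set (F × F)} (hI : Ind s I) (h : I.ncard ≤ s + 1) :
    LinearIndepOn F (vec s) I := by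
  rcases hI with hI | ⟨_, g, hg⟩
  · exact hI
  · exact linInd_curve g I hg h

lemma lin_aug {s : ℕ} {I J : Set (F × F)} (hI : LinearIndepOn F (vec s) I)
    (hJ : LinearIndepOn F (vec s) J) (h : I.ncard < J.ncard) :
    ∃ e ∈ J, e ∉ I ∧ LinearIndepOn F (vec s) (insert e I) := by
  by_contra hcon
  push Not at hcon
  have h1 : Submodule.span F (vec s '' J) ≤ Submodule.span F (vec s '' I) := by
    rw [Submodule.span_le]
    rintro _ ⟨e, he, rfl⟩
    by_cases heI : e ∈ I
    · exact Submodule.subset_span ⟨e, heI, rfl⟩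
    · by_contra h2
      exact hcon e he heI (hI.insert h2)
  have h2 := Submodule.finrank_mono h1
  rw [ncard_eq_finrank hI, ncard_eq_finrank hJ] at h2
  omega

lemma ind_aug {s : ℕ} {I J : Set (F × F)} (hI : Ind s I) (hJ : Ind s J)
    (h : I.ncard < J.ncard) : ∃ e ∈ J, e ∉ I ∧ Ind s (insert e I) := by
  have hJc := hJ.ncard_le
  have hIl : LinearIndepOn F (vec s) I := hI.lin (by omega)
  rcases hJ with hJ | ⟨_, g, hg⟩
  · obtain ⟨e, he, heI, h1⟩ := lin_aug hIl hJ h
    exact ⟨e, he, heI, Or.inl h1⟩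
  · by_cases hIs : I.ncard ≤ s
    · obtain ⟨J', hJ', hJc'⟩ : ∃ J' ⊆ J, J'.ncard = I.ncard + 1 :=
        Set.exists_subset_card_eq (by omega)
      obtain ⟨e, he, heI, h1⟩ := lin_aug hIl (linInd_curve g J' (hJ'.trans hg) (by omega))
        (by omega)
      exact ⟨e, hJ' he, heI, Or.inl h1⟩
    · have hIs' : I.ncard = s + 1 := by omega
      by_cases hIg : I ⊆ curve g
      · obtain ⟨e, he, heI⟩ := Set.exists_mem_notMem_of_ncard_lt_ncard h
        refine ⟨e, he, heI, Or.inr ⟨?_, g, Set.insert_subset (hg he) hIg⟩⟩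
        have := Set.ncard_insert_le e I
        omega
      · by_contra hcon
        push Not at hcon
        obtain ⟨J', hJ', hJc'⟩ : ∃ J' ⊆ J, J'.ncard = s + 1 :=
          Set.exists_subset_card_eq (by omega)
        have hJl := linInd_curve g J' (hJ'.trans hg) (by omega)
        have h1 : Submodule.span F (vec s '' J') ≤ Submodule.span F (vec s '' I) := by
          rw [Submodule.span_le]
          rintro _ ⟨e, he, rfl⟩
          by_cases heI : e ∈ I
          · exact Submodule.subset_span ⟨e, heI, rfl⟩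
          · by_contra h2
            exact hcon e (hJ' he) heI (Or.inl (hIl.insert h2))
        have h2 : Submodule.span F (vec s '' J') = Submodule.span F (vec s '' I) := by
          apply Submodule.eq_of_le_of_finrank_eq h1
          rw [ncard_eq_finrank hIl, ncard_eq_finrank hJl]; omega
        have h3 : Submodule.span F (vec s '' J') ≤ LinearMap.ker (hfun g) := by
          rw [Submodule.span_le]
          rintro _ ⟨e, he, rfl⟩
          exact (mem_curve_iff g e).1 (hg (hJ' he))
        apply hIg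
        intro x hx
        rw [mem_curve_iff]
        apply h3
        rw [h2]
        exact Submodule.subset_span ⟨x, hx, rfl⟩

/-- The relaxed matroid. -/
noncomputable def relM (F : Type) [Field F] [Fintype F] (s : ℕ) : Matroid (F × F) :=
  (IndepMatroid.ofFinite (E := (Set.univ : Set (F × F))) (Set.toFinite _) (Ind s)
    (Or.inl (linearIndepOn_empty F _))
    (fun _ _ hJ h => hJ.mono h)
    (fun _ _ hI hJ h => ind_aug hI hJ h)
    (fun _ _ => Set.subset_univ _)).matroid

@[simp] lemma relM_E (s : ℕ) : (relM F s).E = Set.univ := rfl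
@[simp] lemma relM_indep (s : ℕ) (I : Set (F × F)) : (relM F s).Indep I ↔ Ind s I := Iff.rfl

instance (s : ℕ) : (relM F s).Finite := ⟨Set.toFinite _⟩

end Pool.Agent.FlatsCount
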