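import Pool.Agent.FlatsCount.Basic

open Set Module Matroid

namespace Pool.Agent.FlatsCount

variable {F : Type} [Field F] [Fintype F]

/-- A linear map `V → F²` whose kernel is the span of an independent `s`-set. -/
lemma exists_quot {s : ℕ} {C : Set (F × F)} (hC : LinearIndepOn F (vec s) C)
    (hs : C.ncard = s) : ∃ f : ((Fin (s+1) → F) × F) →ₗ[F] (Fin 2 → F),
      LinearMap.ker f = Submodule.span F (vec s '' C) := by
  set W := Submodule.span F (vec s '' C) with hW
  have h1 : finrank F W = s := by rw [hW, ncard_eq_finrank hC, hs]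
  have h2 : finrank F (((Fin (s+1) → F) × F) ⧸ W) = finrank F (Fin 2 → F) := by
    have := Submodule.finrank_quotient_add_finrank W
    rw [finrank_V, h1] at this
    simp only [finrank_fintype_fun_eq_card, Fintype.card_fin]
    omega
  let e := LinearEquiv.ofFinrankEq (((Fin (s+1) → F) × F) ⧸ W) (Fin 2 → F) h2
  refine ⟨e.toLinearMap ∘ₗ W.mkQ, ?_⟩
  rw [LinearMap.ker_comp]
  simp

/-- class of a nonzero vector of `F²` -/
noncomputable def cls (w : Fin 2 → F) : Option F := by
  classical
  exact if w 1 = 0 then none else some (w 0 / w 1)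

lemma cls_eq {w z : Fin 2 → F} (hw : w ≠ 0) (hz : z ≠ 0) (h : cls w = cls z) :
    ∃ b : F, w = b • z := by
  classical
  unfold cls at h
  have hext : ∀ u : Fin 2 → F, u 1 = 0 → u ≠ 0 → u 0 ≠ 0 := by
    intro u h1 h2 h3
    apply h2
    ext i
    fin_cases i
    · exact h3
    · exact h1
  split_ifs at h with h1 h2
  · refine ⟨w 0 / z 0, ?_⟩
    have := hext z h2 hz
    ext i
    fin_cases i
    · simp [this]
    · simp [h1, h2]
  · rename_i h2
    simp only [Option.some.injEq] at h
    refine ⟨w 1 / z 1, ?_⟩
    ext i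
    fin_cases i
    · simp only [Fin.zero_eta, Pi.smul_apply, smul_eq_mul]
      field_simp at h ⊢
      rw [h]
    · simp [h2]

/-- two elements with the same class are dependent modulo `C` -/
lemma dep_of_cls {s : ℕ} {C : Set (F × F)} {f : ((Fin (s+1) → F) × F) →ₗ[F] (Fin 2 → F)}
    (hf : LinearMap.ker f = Submodule.span F (vec s '' C)) {x y : F × F}
    (hx : f (vec s x) ≠ 0) (hy : f (vec s y) ≠ 0)
    (h : cls (f (vec s x)) = cls (f (vec s y))) :
    vec s x ∈ Submodule.span F (vec s '' (insert y C)) := by
  obtain ⟨b, hb⟩ := cls_eq hx hy h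
  have h1 : vec s x - b • vec s y ∈ LinearMap.ker f := by
    rw [LinearMap.mem_ker, map_sub, map_smul, hb, sub_self]
  rw [hf] at h1
  have h2 : vec s x = (vec s x - b • vec s y) + b • vec s y := by abel
  rw [h2]
  apply Submodule.add_mem
  · exact Submodule.span_mono (Set.image_mono (Set.subset_insert _ _)) h1
  · exact Submodule.smul_mem _ _ (Submodule.subset_span ⟨y, Set.mem_insert _ _, rfl⟩)

lemma curve_eq_of_common {s : ℕ} {g h : Fin s → F} {C : Set (F × F)} (hg : C ⊆ curve g)
    (hh : C ⊆ curve h) (hC : s ≤ C.ncard) : g = h := by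
  classical
  -- the polynomial with coefficients `g - h` has `s` roots
  by_contra hne
  set P : Polynomial F := ∑ i : Fin s, Polynomial.monomial (i:ℕ) (g i - h i) with hP
  have hcoeff : ∀ i : Fin s, P.coeff i = g i - h i := by
    intro i
    rw [hP, Polynomial.finset_sum_coeff, Finset.sum_eq_single i]
    · simp
    · intro j _ hj
      rw [Polynomial.coeff_monomial, if_neg]
      intro h; exact hj (Fin.ext h)
    · simp
  have hP0 : P ≠ 0 := by
    intro h0
    apply hne
    ext i
    have := hcoeff i
    rw [h0, Polynomial.coeff_zero] at this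
    exact (sub_eq_zero.1 this.symm)
  have hs : 0 < s := by
    rcases Nat.eq_zero_or_pos s with h0 | h0
    · subst h0
      exact absurd (Subsingleton.elim g h) hne
    · exact h0
  have hdeg : P.natDegree < s := by
    have h1 : P.natDegree ≤ s - 1 := by
      rw [hP]
      apply Polynomial.natDegree_sum_le_of_forall_le
      intro i _
      exact (Polynomial.natDegree_monomial_le _).trans (by have := i.2; omega)
    omega
  obtain ⟨T, rfl⟩ := (Set.toFinite C).exists_finset_coe
  rw [Set.ncard_coe_finset] at hC
  have hroots : T.image Prod.fst ⊆ P.roots.toFinset := by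
    intro t ht
    rw [Finset.mem_image] at ht
    obtain ⟨x, hx, rfl⟩ := ht
    rw [Multiset.mem_toFinset, Polynomial.mem_roots hP0, Polynomial.IsRoot.def, hP,
      Polynomial.eval_finset_sum]
    have h1 : x.2 = ∑ i, g i * x.1 ^ (i:ℕ) := hg hx
    have h2 : x.2 = ∑ i, h i * x.1 ^ (i:ℕ) := hh hx
    simp only [Polynomial.eval_monomial, sub_mul, Finset.sum_sub_distrib]
    rw [← h1, ← h2, sub_self]
  have h1 : (T.image Prod.fst).card = T.card :=
    Finset.card_image_of_injOn ((curve_injOn g).mono hg)
  have h2 := Finset.card_le_card hroots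
  have h3 := Multiset.toFinset_card_le P.roots
  have h4 := P.card_roots'
  omega

/-- `curve g` has exactly `|F|` points. -/
lemma ncard_curve {s : ℕ} (g : Fin s → F) : (curve g).ncard = Fintype.card F := by
  have h1 : (Prod.fst '' (curve g)).ncard = (curve g).ncard :=
    Set.ncard_image_of_injOn (curve_injOn g)
  rw [← h1]
  have h2 : Prod.fst '' (curve g) = Set.univ := by
    rw [Set.eq_univ_iff_forall]
    intro t
    exact ⟨(t, ∑ i, g i * t ^ (i:ℕ)), rfl, rfl⟩
  rw [h2, Set.ncard_univ, Nat.card_eq_fintype_card]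

/-- The bound on long lines. -/
theorem line_bound {s : ℕ} (hn : s + 1 ≤ Fintype.card F) {C Y : Set (F × F)}
    (hCi : Ind s C) (hC : C.ncard = s)
    (hY : ∀ u ∈ Y, ∀ v ∈ Y, u ≠ v → u ∉ C ∧ v ∉ C ∧ Ind s (insert u (insert v C))) :
    Y.ncard ≤ 2 * Fintype.card F - s := by
  classical
  rcases Nat.lt_or_ge Y.ncard 2 with hY2 | hY2
  · omega
  have hCl : LinearIndepOn F (vec s) C := hCi.lin (by omega)
  obtain ⟨f, hf⟩ := exists_quot hCl hC
  -- every element of `Y` is outside `C` and nonzero
  have hpair : ∀ u ∈ Y, ∃ v ∈ Y, u ≠ v := by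
    intro u hu
    obtain ⟨v, hv, hne⟩ := Set.exists_ne_of_one_lt_ncard (by omega : 1 < Y.ncard) u
    exact ⟨v, hv, hne.symm⟩
  have hYC : ∀ u ∈ Y, u ∉ C := by
    intro u hu
    obtain ⟨v, hv, hne⟩ := hpair u hu
    exact (hY u hu v hv hne).1
  have hYf : ∀ u ∈ Y, f (vec s u) ≠ 0 := by
    intro u hu h0
    obtain ⟨v, hv, hne⟩ := hpair u hu
    have h1 : Ind s (insert u C) := by
      apply (hY u hu v hv hne).2.2.mono
      exact Set.insert_subset_insert (Set.subset_insert _ _)
    have h2 : LinearIndepOn F (vec s) (insert u C) := by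
      apply h1.lin
      have := Set.ncard_insert_le u C
      omega
    have h3 := h2.notMem_span_of_insert (hYC u hu)
    apply h3
    rw [← hf, LinearMap.mem_ker]
    exact h0
  -- if two elements have the same class then they lie on a common curve through C
  have hcls : ∀ u ∈ Y, ∀ v ∈ Y, u ≠ v → cls (f (vec s u)) = cls (f (vec s v)) →
      ∃ g : Fin s → F, C ⊆ curve g ∧ u ∈ curve g ∧ v ∈ curve g := by
    intro u hu v hv hne h
    obtain ⟨h1, h2, h3⟩ := hY u hu v hv hne
    rcases h3 with h3 | ⟨_, g, hg⟩
    · exfalso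
      have h4 := dep_of_cls hf (hYf u hu) (hYf v hv) h
      refine h3.notMem_span_of_insert ?_ h4
      rintro (h5 | h5)
      · exact hne h5
      · exact h1 h5
    · refine ⟨g, fun x hx => hg ?_, hg ?_, hg ?_⟩
      · exact Set.mem_insert_of_mem _ (Set.mem_insert_of_mem _ hx)
      · exact Set.mem_insert _ _
      · exact Set.mem_insert_of_mem _ (Set.mem_insert _ _)
  by_cases hg : ∃ g : Fin s → F, C ⊆ curve g
  · obtain ⟨g, hg⟩ := hg
    -- split Y
    have hsplit : Y.ncard ≤ (Y ∩ curve g).ncard + (Y \ curve g).ncard := by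
      have := Set.ncard_inter_add_ncard_sdiff_eq_ncard Y (curve g) (Set.toFinite _)
      omega
    have h1 : (Y ∩ curve g).ncard ≤ Fintype.card F - s := by
      have h2 : Y ∩ curve g ⊆ curve g \ C := fun x hx => ⟨hx.2, hYC x hx.1⟩
      have h3 := Set.ncard_le_ncard h2 (Set.toFinite _)
      rw [Set.ncard_sdiff hg (Set.toFinite _), ncard_curve, hC] at h3
      exact h3
    have h2 : (Y \ curve g).ncard ≤ Fintype.card F := by
      obtain ⟨b, hb, hbC⟩ : ∃ b ∈ curve g, b ∉ C := by
        exact Set.exists_mem_notMem_of_ncard_lt_ncard (by rw [ncard_curve, hC]; omega)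
          (Set.toFinite _)
      have hbf : f (vec s b) ≠ 0 := by
        intro h0
        have h3 : LinearIndepOn F (vec s) (insert b C) := by
          apply linInd_curve g _ (Set.insert_subset hb hg)
          have := Set.ncard_insert_le b C
          omega
        apply h3.notMem_span_of_insert hbC
        rw [← hf, LinearMap.mem_ker]
        exact h0
      have hspan : Submodule.span F (vec s '' (insert b C)) ≤ LinearMap.ker (hfun g) := by
        rw [Submodule.span_le]
        rintro _ ⟨e, he, rfl⟩
        exact (mem_curve_iff g e).1 ((Set.insert_subset hb hg) he)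
      set φ : F × F → Option F := fun x => cls (f (vec s x)) with hφ
      have hinj : Set.InjOn φ (Y \ curve g) := by
        intro u hu v hv huv
        by_contra hne
        obtain ⟨g', h1, h2, h3⟩ := hcls u hu.1 v hv.1 hne huv
        have h4 : g' = g := curve_eq_of_common h1 hg (by omega)
        rw [h4] at h2
        exact hu.2 h2
      have hsub : φ '' (Y \ curve g) ⊆ Set.univ \ {φ b} := by
        rintro _ ⟨u, hu, rfl⟩
        refine ⟨Set.mem_univ _, ?_⟩
        intro h
        rw [Set.mem_singleton_iff] at h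
        have h1 := dep_of_cls hf (hYf u hu.1) hbf h
        apply hu.2
        rw [mem_curve_iff]
        exact hspan h1
      have h3 := Set.ncard_le_ncard hsub (Set.toFinite _)
      rw [Set.ncard_image_of_injOn hinj, Set.ncard_sdiff (Set.subset_univ _) (Set.toFinite _),
        Set.ncard_univ, Set.ncard_singleton, Nat.card_eq_fintype_card, Fintype.card_option] at h3
      omega
    omega
  · have hinj : Set.InjOn (fun x => cls (f (vec s x))) Y := by
      intro u hu v hv huv
      by_contra hne
      obtain ⟨g', h1, _, _⟩ := hcls u hu v hv hne huv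
      exact hg ⟨g', h1⟩
    have h3 := Set.ncard_le_ncard (Set.subset_univ ((fun x => cls (f (vec s x))) '' Y))
      (Set.toFinite _)
    rw [Set.ncard_image_of_injOn hinj, Set.ncard_univ, Nat.card_eq_fintype_card,
      Fintype.card_option] at h3
    omega

end Pool.Agent.FlatsCount
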