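import Pool.Agent.FlatsCount.Bound

open Set Module Matroid

namespace Pool.Agent.FlatsCount

variable {F : Type} [Field F] [Fintype F]

lemma indep_pair {s : ℕ} (hs : 1 ≤ s) (e f : F × F) : (relM F s).Indep {e, f} := by
  rw [relM_indep]
  left
  by_cases h : e.1 = f.1
  · by_cases h2 : e = f
    · subst h2
      rw [Set.pair_eq_singleton]
      apply linInd_of_transversal
      · exact Set.injOn_singleton _ _
      · simp
    · have hf : LinearIndepOn F (vec s) {f} := by
        apply linInd_of_transversal
        · exact Set.injOn_singleton _ _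
        · simp
      apply hf.insert
      rw [Set.image_singleton, Submodule.mem_span_singleton]
      rintro ⟨a, ha⟩
      have h3 := congrFun (congrArg Prod.fst ha) 0
      have h4 := congrArg Prod.snd ha
      simp [vec] at h3 h4
      rw [h3, one_mul] at h4
      exact h2 (Prod.ext h h4.symm)
  · apply linInd_of_transversal
    · rintro x hx y hy hxy
      rcases hx with rfl | rfl <;> rcases hy with rfl | rfl
      · rfl
      · exact absurd hxy h
      · exact absurd hxy.symm h
      · rfl
    · have : ({e, f} : Set (F × F)).ncard ≤ 2 := by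
        have := Set.ncard_insert_le e {f}
        rw [Set.ncard_singleton] at this
        exact this
      omega

lemma exists_sub_curve {s m : ℕ} (g : Fin s → F) (h : m ≤ Fintype.card F) :
    ∃ S ⊆ curve g, S.ncard = m :=
  Set.exists_subset_card_eq (by rw [ncard_curve]; exact h)

lemma eRank_relM {s : ℕ} (hn : s + 2 ≤ Fintype.card F) : (relM F s).eRank = ((s + 2 : ℕ) : ℕ∞) := by
  apply le_antisymm
  · obtain ⟨B, hB⟩ := (relM F s).exists_isBase
    rw [← hB.encard_eq_eRank, ← (Set.toFinite B).cast_ncard_eq]
    exact_mod_cast (show Ind s B from hB.indep).ncard_le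
  · obtain ⟨S, hS, hSc⟩ := exists_sub_curve (s := s) (0 : Fin s → F) hn
    have : (relM F s).Indep S := Or.inr ⟨hSc.le, _, hS⟩
    have h := this.encard_le_eRank
    rwa [← (Set.toFinite S).cast_ncard_eq, hSc] at h

lemma flat_of_sub_curve {s : ℕ} (g : Fin s → F) {S : Set (F × F)} (hS : S ⊆ curve g)
    (hSc : S.ncard = s + 1) :
    (relM F s).IsFlat S ∧ (relM F s).eRk S = ((s + 1 : ℕ) : ℕ∞) := by
  have hlin := linInd_curve g S hS hSc.le
  have hind : (relM F s).Indep S := Or.inl hlin
  constructor
  · rw [isFlat_iff_closure_eq]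
    apply Set.Subset.antisymm
    · intro x hx
      by_contra hxS
      rw [hind.mem_closure_iff_of_notMem hxS] at hx
      apply hx.not_indep
      rw [relM_indep]
      by_cases hxg : x ∈ curve g
      · right
        refine ⟨?_, g, Set.insert_subset hxg hS⟩
        have := Set.ncard_insert_le x S
        omega
      · left
        apply hlin.insert
        intro h
        apply hxg
        rw [mem_curve_iff]
        have hspan : Submodule.span F (vec s '' S) ≤ LinearMap.ker (hfun g) := by
          rw [Submodule.span_le]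
          rintro _ ⟨e, he, rfl⟩
          exact (mem_curve_iff g e).1 (hS he)
        exact hspan h
    · exact (relM F s).subset_closure S (Set.subset_univ _)
  · rw [hind.eRk_eq_encard, ← (Set.toFinite S).cast_ncard_eq, hSc]

/-- number of flats of rank `s+1` -/
theorem flats_count (s : ℕ) :
    Fintype.card F ^ s * (Fintype.card F).choose (s + 1) ≤
      {X : Set (F × F) | (relM F s).IsFlat X ∧ (relM F s).eRk X = ((s + 1 : ℕ) : ℕ∞)}.ncard := by
  classical
  set Φ : (Fin s → F) × Finset F → Set (F × F) := fun p => {x | x.1 ∈ p.2 ∧ x ∈ curve p.1}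
    with hΦ
  have hfst : ∀ p, Prod.fst '' (Φ p) = (p.2 : Set F) := by
    rintro ⟨g, T⟩
    ext t
    constructor
    · rintro ⟨x, hx, rfl⟩
      exact hx.1
    · intro ht
      exact ⟨(t, ∑ i, g i * t ^ (i:ℕ)), ⟨ht, rfl⟩, rfl⟩
  have hcard : ∀ p, (Φ p).ncard = p.2.card := by
    intro p
    have h1 : InjOn Prod.fst (Φ p) := (curve_injOn p.1).mono (fun x hx => hx.2)
    rw [← h1.ncard_image, hfst, Set.ncard_coe_finset]
  set A : Finset ((Fin s → F) × Finset F) :=
    Finset.univ ×ˢ Finset.powersetCard (s + 1) (Finset.univ : Finset F) with hA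
  have hAc : A.card = Fintype.card F ^ s * (Fintype.card F).choose (s + 1) := by
    rw [hA, Finset.card_product, Finset.card_powersetCard, Finset.card_univ, Finset.card_univ]
    simp
  rw [← hAc, ← Set.ncard_coe_finset]
  apply Set.ncard_le_ncard_of_injOn Φ
  · rintro ⟨g, T⟩ hp
    have hT : T.card = s + 1 := by
      rw [hA, Finset.mem_coe, Finset.mem_product, Finset.mem_powersetCard] at hp
      exact hp.2.2
    apply flat_of_sub_curve g (fun x hx => hx.2)
    rw [hcard]
    exact hT
  · rintro ⟨g, T⟩ hp ⟨g', T'⟩ hp' h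
    have hT : T.card = s + 1 := by
      rw [hA, Finset.mem_coe, Finset.mem_product, Finset.mem_powersetCard] at hp
      exact hp.2.2
    have h1 : (T : Set F) = (T' : Set F) := by
      have := hfst (g, T)
      rw [h, hfst] at this
      exact this.symm
    have h2 : T = T' := Finset.coe_injective h1
    have h3 : g = g' := by
      apply curve_eq_of_common (C := Φ (g, T)) (fun x hx => hx.2)
      · rw [h]
        exact fun x hx => hx.2
      · rw [hcard]
        simp only
        omega
    rw [h2, h3]

/-- `m`-point line minors are short. -/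
theorem minor_bound {s m : ℕ} (hn : s + 2 ≤ Fintype.card F) (hm : 2 * Fintype.card F - s < m)
    (N : Matroid (F × F)) (hN : N ≤m relM F s) (hE : N.E.encard = (m : ℕ∞))
    (hI : ∀ I ⊆ N.E, N.Indep I ↔ I.encard ≤ 2) : False := by
  classical
  obtain ⟨C0, D, rfl⟩ := hN
  set M := relM F s with hM
  set Y := (M ／ C0 ＼ D).E with hY
  have hYE : Y = (M.E \ C0) \ D := by
    rw [hY, delete_ground, contract_ground]
  have hYC0 : Disjoint C0 Y := by
    rw [hYE]
    exact Set.disjoint_left.2 (fun x hx hx2 => hx2.1.2 hx)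
  have hYD : Disjoint Y D := by
    rw [hYE]
    exact Set.disjoint_left.2 (fun x hx hx2 => hx.2 hx2)
  obtain ⟨I0, hI0⟩ := M.exists_isBasis' C0
  have hiff : ∀ J ⊆ Y, M.Indep (J ∪ I0) ↔ J.encard ≤ 2 := by
    intro J hJ
    rw [← hI J hJ, delete_indep_iff, hI0.contract_indep_iff,
      and_iff_left (hYC0.mono_right hJ), and_iff_left (hYD.mono_left hJ)]
  have hYc : Y.ncard = m := by
    rw [Set.ncard_def, hE]; simp
  have hI0C : I0 ⊆ C0 := hI0.subset
  have hYI0 : ∀ y ∈ Y, y ∉ I0 := fun y hy h => Set.disjoint_left.1 hYC0 (hI0C h) hy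
  have hbas : ∀ u ∈ Y, ∀ v ∈ Y, u ≠ v → M.IsBasis ({u, v} ∪ I0) (Y ∪ I0) := by
    intro u hu v hv huv
    apply Indep.isBasis_of_forall_insert
    · rw [hiff _ (Set.insert_subset hu (Set.singleton_subset_iff.2 hv))]
      rw [Set.encard_pair huv]
    · exact Set.union_subset_union_left _ (Set.insert_subset hu (Set.singleton_subset_iff.2 hv))
    · rintro z ⟨hz1, hz2⟩
      have hzI : z ∉ I0 := fun h => hz2 (Or.inr h)
      have hzY : z ∈ Y := hz1.resolve_right hzI
      have hzuv : z ∉ ({u, v} : Set (F × F)) := fun h => hz2 (Or.inl h)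
      rw [← not_indep_iff]
      intro h
      rw [← Set.insert_union, hiff _ (Set.insert_subset hzY
        (Set.insert_subset hu (Set.singleton_subset_iff.2 hv))),
        Set.encard_insert_of_notMem hzuv, Set.encard_pair huv] at h
      exact absurd h (by decide)
  -- choose x, y and a base
  obtain ⟨x, hx, y, hy, hxy⟩ : ∃ x ∈ Y, ∃ y ∈ Y, x ≠ y := by
    have : 1 < Y.ncard := by rw [hYc]; omega
    rw [Set.one_lt_ncard (Set.toFinite _)] at this
    obtain ⟨a, ha, b, hb, hab⟩ := this
    exact ⟨a, ha, b, hb, hab⟩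
  have hb0 := hbas x hx y hy hxy
  obtain ⟨B, hB, hB0⟩ := hb0.indep.exists_isBase_superset
  have hBc : B.ncard ≤ s + 2 := (show Ind s B from hB.indep).ncard_le
  set D' := B \ ({x, y} ∪ I0) with hD'
  have hDX : Disjoint (Y ∪ I0) D' := by
    rw [Set.disjoint_left]
    rintro z hz ⟨hzB, hz2⟩
    apply hz2
    apply hb0.mem_of_insert_indep hz
    exact hB.indep.subset (Set.insert_subset hzB hB0)
  have hcon : (M ／ (Y ∪ I0)).Indep D' := by
    rw [hb0.contract_indep_iff]
    refine ⟨hB.indep.subset ?_, hDX⟩
    exact Set.union_subset Set.diff_subset hB0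
  set C := D' ∪ I0 with hC
  have hYC : ∀ u ∈ Y, u ∉ C := by
    rintro u hu (h | h)
    · exact Set.disjoint_left.1 hDX (Or.inl hu) h
    · exact hYI0 u hu h
  have hins : ∀ u v : F × F, insert u (insert v C) = D' ∪ ({u, v} ∪ I0) := by
    intro u v
    ext z
    simp only [hC, Set.mem_insert_iff, Set.mem_union, Set.mem_singleton_iff]
    tauto
  have hall : ∀ u ∈ Y, ∀ v ∈ Y, u ≠ v → u ∉ C ∧ v ∉ C ∧ Ind s (insert u (insert v C)) := by
    intro u hu v hv huv
    refine ⟨hYC u hu, hYC v hv, ?_⟩
    rw [(hbas u hu v hv huv).contract_indep_iff] at hcon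
    rw [hins]
    exact hcon.1
  have hBeq : insert x (insert y C) = B := by
    rw [hins, hD']
    exact Set.diff_union_of_subset hB0
  have hBe : B.ncard = C.ncard + 2 := by
    rw [← hBeq, Set.ncard_insert_of_notMem _ (Set.toFinite _),
      Set.ncard_insert_of_notMem (hYC y hy) (Set.toFinite _)]
    rintro (h | h)
    · exact hxy h
    · exact hYC x hx h
  have hCi : Ind s C := by
    apply (show Ind s B from hB.indep).mono
    rw [← hBeq]
    exact fun z hz => Or.inr (Or.inr hz)
  have hCc : C.ncard = s := by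
    have h1 : M.eRank = ((s + 2 : ℕ) : ℕ∞) → B.ncard = s + 2 := by
      intro h
      rw [← hB.encard_eq_eRank, ← (Set.toFinite B).cast_ncard_eq] at h
      exact_mod_cast h
    have := h1 (eRank_relM hn)
    omega
  have := line_bound (by omega) hCi hCc hall
  omega

end Pool.Agent.FlatsCount
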